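import Pool.Agent.Helper65.RP.Defs

/-!
# Dynamical Mordell-Lang for curves and regular polynomial maps: growth of an orbit (B2)
-/

set_option autoImplicit false

namespace Pool.Agent.Helper32.RP

open Pool.Agent.Helper65.RP
open MvPolynomial Filter Topology

section B
variable {K Kb : Type} [Field K] [Field Kb] [Algebra K Kb] [IsAlgClosed Kb] {N d : ℕ}
  {f : Fin N → MvPolynomial (Fin N) K}

/-- B2 -/
theorem orbit_growth (hd : 2 ≤ d) (v : AbsoluteValue K ℝ)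
    (hstep : ∃ C : ℝ, ∀ x : Fin N → K, |lh v (fun i => eval x (f i)) - d * lh v x| ≤ C)
    (a : Fin N → K) : ∃ G C : ℝ, 0 ≤ G ∧ ∀ n, |lh v (orb f a n) - d ^ n * G| ≤ C := by
  obtain ⟨C0, hC0⟩ := hstep
  have hd2 : (2 : ℝ) ≤ (d : ℝ) := by exact_mod_cast hd
  have hd0 : (0 : ℝ) < (d : ℝ) := by linarith
  have hpow : ∀ n : ℕ, (0 : ℝ) < (d : ℝ) ^ n := fun n => pow_pos hd0 n
  have hr1 : (1 / (d : ℝ)) < 1 := by
    rw [div_lt_one hd0]; linarith
  have hh0 : ∀ n, 0 ≤ lh v (orb f a n) := fun n =>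
    Real.log_nonneg (le_max_left _ _)
  have hst : ∀ n, |lh v (orb f a (n + 1)) - d * lh v (orb f a n)| ≤ C0 := by
    intro n
    have h1 : orb f a (n + 1) = fun i => eval (orb f a n) (f i) := by
      unfold orb
      rw [Function.iterate_succ_apply']
    rw [h1]
    exact hC0 _
  have hu : ∀ n, dist (lh v (orb f a n) / (d : ℝ) ^ n)
      (lh v (orb f a (n + 1)) / (d : ℝ) ^ (n + 1)) ≤ (C0 / d) * (1 / (d : ℝ)) ^ n := by
    intro n
    rw [Real.dist_eq, abs_sub_comm]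
    have h2 : lh v (orb f a (n + 1)) / (d : ℝ) ^ (n + 1) - lh v (orb f a n) / (d : ℝ) ^ n
        = (lh v (orb f a (n + 1)) - d * lh v (orb f a n)) / (d : ℝ) ^ (n + 1) := by
      rw [pow_succ]
      field_simp
    rw [h2, abs_div, abs_of_pos (hpow (n + 1))]
    have h3 : (C0 / d) * (1 / (d : ℝ)) ^ n = C0 / (d : ℝ) ^ (n + 1) := by
      rw [pow_succ, one_div, inv_pow]
      field_simp
    rw [h3]
    exact div_le_div_of_nonneg_right (hst n) (hpow (n + 1)).le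
  have hcau := cauchySeq_of_le_geometric (1 / (d : ℝ)) (C0 / d) hr1 hu
  obtain ⟨G, hG⟩ := cauchySeq_tendsto_of_complete hcau
  refine ⟨G, (C0 / d) / (1 - 1 / (d : ℝ)), ?_, ?_⟩
  · exact ge_of_tendsto' hG fun n => div_nonneg (hh0 n) (hpow n).le
  · intro n
    have h4 := dist_le_of_le_geometric_of_tendsto (1 / (d : ℝ)) (C0 / d) hr1 hu hG n
    rw [Real.dist_eq] at h4
    have h5 : lh v (orb f a n) - (d : ℝ) ^ n * G
        = (d : ℝ) ^ n * (lh v (orb f a n) / (d : ℝ) ^ n - G) := by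
      field_simp [(hpow n).ne']
    rw [h5, abs_mul, abs_of_pos (hpow n)]
    calc (d : ℝ) ^ n * |lh v (orb f a n) / (d : ℝ) ^ n - G|
        ≤ (d : ℝ) ^ n * ((C0 / d) * (1 / (d : ℝ)) ^ n / (1 - 1 / (d : ℝ))) :=
          mul_le_mul_of_nonneg_left h4 (hpow n).le
      _ = (C0 / d) / (1 - 1 / (d : ℝ)) := by
          have h6 : (d : ℝ) ^ n * (1 / (d : ℝ)) ^ n = 1 := by
            rw [← mul_pow, mul_one_div_cancel hd0.ne', one_pow]
          calc (d : ℝ) ^ n * ((C0 / d) * (1 / (d : ℝ)) ^ n / (1 - 1 / (d : ℝ)))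
              = ((d : ℝ) ^ n * (1 / (d : ℝ)) ^ n) * ((C0 / d) / (1 - 1 / (d : ℝ))) := by ring
            _ = (C0 / d) / (1 - 1 / (d : ℝ)) := by rw [h6, one_mul]

end B

end Pool.Agent.Helper32.RP
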